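import Pool.Agent.Helper66_DF.StmtsE2

/-!
# Squad DF, module FEN: from the Brauer maps to the defect groups of a character
-/

open scoped BigOperators

noncomputable section

namespace Pool.Agent.DF.H46

open Pool.Agent.Helper51_AWC Pool.Agent.Helper79_WRA Pool.Agent.PP Pool.Agent.DF

/-- FEN -/
theorem fen : FenStmt := by
  classical
  intro ℓ hℓ M _ hM 𝒟 D _ _ hO f hf hDf ϑ hϑ hres
  let _ := Ideal.Quotient.field M
  have hfact := Fact.mk hℓ
  have h1 : res M f ϑ ≠ 0 := by rw [hres]; exact one_ne_zero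
  obtain ⟨K, hK⟩ : ∃ K : ConjClasses D, f (Quotient.out K) *
      red M (omega (MonoidHom.id D) ϑ (Quotient.out K)) ≠ 0 := by
    by_contra hc
    apply h1
    unfold res
    rw [finsum_eq_zero_of_forall_eq_zero]
    intro K
    by_contra h2
    exact hc ⟨K, h2⟩
  obtain ⟨y, hy⟩ : ∃ y : D, y = Quotient.out K := ⟨_, rfl⟩
  rw [← hy] at hK
  have hf0 : f y ≠ 0 := left_ne_zero_of_mul hK
  have hw0 : red M (omega (MonoidHom.id D) ϑ y) ≠ 0 := right_ne_zero_of_mul hK
  obtain ⟨S⟩ : Nonempty (Sylow ℓ (Subgroup.centralizer ({y} : Set D))) := inferInstance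
  obtain ⟨P, hP⟩ : ∃ P : Subgroup D,
      P = (S : Subgroup (Subgroup.centralizer ({y} : Set D))).map
        (Subgroup.centralizer ({y} : Set D)).subtype := ⟨_, rfl⟩
  have hPle : P ≤ Subgroup.centralizer ({y} : Set D) := by
    rw [hP]
    exact Subgroup.map_subtype_le _
  have hPp : IsPGroup ℓ P := by
    rw [hP]
    exact S.isPGroup'.map _
  have hPi : ¬ ℓ ∣ P.relIndex (Subgroup.centralizer ({y} : Set D)) := by
    have h2 : P.subgroupOf (Subgroup.centralizer ({y} : Set D)) =
        (S : Subgroup (Subgroup.centralizer ({y} : Set D))) := by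
      rw [hP]
      exact Subgroup.comap_map_eq_self_of_injective (Subgroup.subtype_injective _) _
    unfold Subgroup.relIndex
    rw [h2]
    exact S.not_dvd_index
  have hPD : 𝒟 P := by
    refine hDf P le_top hPp ⟨y, ?_, hf0⟩
    rw [Subgroup.mem_centralizer_iff]
    intro p hp
    exact Subgroup.mem_centralizer_singleton_iff.1 (hPle hp)
  refine ⟨y, P, hw0, hPle, hPp, hPi, P, inferInstance, MonoidHom.id P, hPD, ?_⟩
  intro u
  rw [hO, Subgroup.mem_bot, MonoidHom.id_apply]
  exact OneMemClass.coe_eq_one.symm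

end Pool.Agent.DF.H46
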